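import Mathlib
import Pool.Agent.W902.C6.Stm

/-!
Project C6 (owner helper902), part CNT3, by helper402: the number of triples of words.
-/

set_option autoImplicit false

namespace Pool.Agent.W402.C6.Cnt3

open Pool.Agent.W902.C6 Finset

theorem mad {n : ℕ} {r : ℕ × ℕ} : r ∈ HasAntidiagonal.antidiagonal n ↔ r.1 + r.2 = n :=
  HasAntidiagonal.mem_antidiagonal

theorem al_pos : 0 < al := by unfold al; positivity

theorem sum_snd (m : ℕ) (f : ℕ → ℝ) :
    ∑ p ∈ antidiagonal m, f p.2 = ∑ k ∈ range (m + 1), f k := by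
  have h := Finset.Nat.sum_antidiagonal_eq_sum_range_succ (fun i _ => f i) m
  rw [← h]
  exact Finset.Nat.sum_antidiagonal_swap (f := fun p : ℕ × ℕ => f p.1)

theorem sum_range_lin (m : ℕ) :
    ∑ k ∈ range (m + 1), ((k : ℝ) + 1) = ((m : ℝ) + 1) * (m + 2) / 2 := by
  induction m with
  | zero => simp
  | succ n ih =>
    rw [sum_range_succ, ih]
    push_cast
    ring

theorem main (hc : S_cnt) : S_cnt3 := by
  classical
  choose W hW hlo hhi using hc
  have ha := al_pos
  -- pairs of words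
  set P : ℕ → Finset (List Lt × List Lt) := fun n =>
    (HasAntidiagonal.antidiagonal n).biUnion fun r => W r.1 ×ˢ W r.2 with hP
  have hPmem : ∀ n z, z ∈ P n ↔ NZ z.1 ∧ NZ z.2 ∧ weight z.1 + weight z.2 = n := by
    intro n z
    simp only [hP, mem_biUnion, mem_product, hW, mad]
    constructor
    · rintro ⟨r, hr, ⟨h1, h2⟩, h3, h4⟩
      exact ⟨h1, h3, by omega⟩
    · rintro ⟨h1, h2, h3⟩
      exact ⟨(weight z.1, weight z.2), h3, ⟨h1, rfl⟩, h2, rfl⟩
  have hPcard : ∀ n, ((P n).card : ℝ) = ∑ r ∈ antidiagonal n, ((W r.1).card : ℝ) * (W r.2).card := by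
    intro n
    rw [hP]
    simp only
    rw [card_biUnion]
    · push_cast
      refine sum_congr rfl fun r _ => ?_
      rw [card_product]
      push_cast
      ring
    · intro r _ r' _ hrr
      rw [Function.onFun, disjoint_left] 
      intro z hz hz'
      simp only [mem_product, hW] at hz hz'
      apply hrr
      apply Prod.ext
      · rw [← hz.1.2, ← hz'.1.2]
      · rw [← hz.2.2, ← hz'.2.2]
  have hPlo : ∀ n : ℕ, ((n : ℝ) + 1) * al ^ n / 4 ≤ ((P n).card : ℝ) := by
    intro n
    rw [hPcard]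
    have h1 : ∑ _r ∈ antidiagonal n, al ^ n / 4 = ((n : ℝ) + 1) * al ^ n / 4 := by
      rw [sum_const, Finset.Nat.card_antidiagonal]
      simp
      ring
    rw [← h1]
    refine sum_le_sum fun r hr => ?_
    have hr' := mad.1 hr
    have e : al ^ n / 4 = (al ^ r.1 / 2) * (al ^ r.2 / 2) := by
      rw [← hr', pow_add]; ring
    rw [e]
    exact mul_le_mul (hlo r.1) (hlo r.2) (by positivity) (by positivity)
  have hPhi : ∀ n : ℕ, ((P n).card : ℝ) ≤ ((n : ℝ) + 1) * al ^ n := by
    intro n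
    rw [hPcard]
    have h1 : ∑ _r ∈ antidiagonal n, al ^ n = ((n : ℝ) + 1) * al ^ n := by
      rw [sum_const, Finset.Nat.card_antidiagonal]
      simp
    rw [← h1]
    refine sum_le_sum fun r hr => ?_
    have hr' := mad.1 hr
    have e : al ^ n = al ^ r.1 * al ^ r.2 := by
      rw [← hr', pow_add]
    rw [e]
    exact mul_le_mul (hhi r.1) (hhi r.2) (by positivity) (by positivity)
  -- triples of words
  set T : ℕ → Finset (List Lt × List Lt × List Lt) := fun n =>
    (HasAntidiagonal.antidiagonal n).biUnion fun r => W r.1 ×ˢ P r.2 with hT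
  have hTmem : ∀ n, (Triple n) = (T n : Set (List Lt × List Lt × List Lt)) := by
    intro n
    ext z
    simp only [Triple, Set.mem_ofPred_eq, mem_coe, hT, mem_biUnion, mem_product, hW, hPmem,
      mad]
    constructor
    · rintro ⟨h1, h2, h3, h4⟩
      exact ⟨(weight z.1, weight z.2.1 + weight z.2.2), by omega, ⟨h1, rfl⟩, h2, h3, rfl⟩
    · rintro ⟨r, hr, ⟨h1, h2⟩, h3, h4, h5⟩
      exact ⟨h1, h3, h4, by omega⟩
  have hTcard : ∀ n, ((T n).card : ℝ) = ∑ r ∈ antidiagonal n, ((W r.1).card : ℝ) * (P r.2).card := by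
    intro n
    rw [hT]
    simp only
    rw [card_biUnion]
    · push_cast
      refine sum_congr rfl fun r _ => ?_
      rw [card_product]
      push_cast
      ring
    · intro r hr r' hr' hrr
      rw [Function.onFun, disjoint_left]
      intro z hz hz'
      simp only [mem_product, hW, hPmem] at hz hz'
      apply hrr
      apply Prod.ext
      · rw [← hz.1.2, ← hz'.1.2]
      · rw [← hz.2.2.2, ← hz'.2.2.2]
  intro m
  rw [hTmem m]
  refine ⟨finite_toSet _, ?_, ?_⟩
  · rw [Set.ncard_coe_finset, hTcard]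
    have h1 : ∑ r ∈ antidiagonal m, ((r.2 : ℝ) + 1) * (al ^ m / 8)
        = ((m : ℝ) + 1) * (m + 2) / 2 * (al ^ m / 8) := by
      rw [← sum_mul, sum_snd m (fun k => (k : ℝ) + 1), sum_range_lin]
    have h2 : ((m : ℝ) + 1) * (m + 2) / 2 * (al ^ m / 8)
        ≤ ∑ r ∈ antidiagonal m, ((W r.1).card : ℝ) * (P r.2).card := by
      rw [← h1]
      refine sum_le_sum fun r hr => ?_
      have hr' := mad.1 hr
      have e : ((r.2 : ℝ) + 1) * (al ^ m / 8) = (al ^ r.1 / 2) * (((r.2 : ℝ) + 1) * al ^ r.2 / 4) := by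
        rw [← hr', pow_add]; ring
      rw [e]
      exact mul_le_mul (hlo r.1) (hPlo r.2) (by positivity) (by positivity)
    refine le_trans ?_ h2
    have hp : 0 < al ^ m := by positivity
    have hm : (0 : ℝ) ≤ m := Nat.cast_nonneg m
    nlinarith [mul_nonneg hm hp.le]
  · rw [Set.ncard_coe_finset, hTcard]
    have h1 : ∑ r ∈ antidiagonal m, ((r.2 : ℝ) + 1) * al ^ m
        = ((m : ℝ) + 1) * (m + 2) / 2 * al ^ m := by
      rw [← sum_mul, sum_snd m (fun k => (k : ℝ) + 1), sum_range_lin]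
    have h2 : ∑ r ∈ antidiagonal m, ((W r.1).card : ℝ) * (P r.2).card
        ≤ ((m : ℝ) + 1) * (m + 2) / 2 * al ^ m := by
      rw [← h1]
      refine sum_le_sum fun r hr => ?_
      have hr' := mad.1 hr
      have e : ((r.2 : ℝ) + 1) * al ^ m = al ^ r.1 * (((r.2 : ℝ) + 1) * al ^ r.2) := by
        rw [← hr', pow_add]; ring
      rw [e]
      exact mul_le_mul (hhi r.1) (hPhi r.2) (by positivity) (by positivity)
    refine le_trans h2 ?_
    have hp : 0 < al ^ m := by positivity
    have hm : (0 : ℝ) ≤ m := Nat.cast_nonneg m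
    nlinarith [mul_nonneg hm hp.le, mul_nonneg (mul_nonneg hm hm) hp.le]

end Pool.Agent.W402.C6.Cnt3
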